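import Pool.Agent.J4H78.HG.Stm

set_option autoImplicit false

/-! Project HG, piece LTC (helper33): lattice sums over an ideal of a totally real quartic field. -/

open NumberField Complex Filter Topology MeasureTheory

namespace Pool.Agent.J4H33.HG

open Pool.Agent.J4H78.HG
open Pool.Agent.J4H78.GP (ind)
open Pool.Agent.Y773 (rl abs_rl norm_eq_prod card_place)

theorem Ph_abs {ι : Type} [Fintype ι] (μ : ι → ℝ) (r s : ι → ℝ) (h : ∀ w, |r w| = |s w|) :
    Ph μ r = Ph μ s := by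
  unfold Ph
  exact Finset.prod_congr rfl (fun w _ => by rw [h w])

/-- the norm of a nonzero element of an ideal -/
theorem norm_ge {L : Type} [Field L] [NumberField L] [IsTotallyReal L] {𝔟 : Ideal (𝓞 L)} {x : 𝓞 L}
    (hx : x ∈ 𝔟) (hx0 : x ≠ 0) :
    (Ideal.absNorm 𝔟 : ℝ) ≤ ∏ w : InfinitePlace L, |rl w (x : L)| := by
  have h1 : ((Algebra.norm ℤ x : ℤ) : ℝ) = ∏ w : InfinitePlace L, rl w (x : L) := by
    rw [← norm_eq_prod]
    have := Algebra.coe_norm_int x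
    rw [← this]
    norm_cast
  rw [← Finset.abs_prod, ← h1]
  have h2 : (Ideal.absNorm 𝔟 : ℤ) ∣ Algebra.norm ℤ x := Ideal.absNorm_dvd_norm_of_mem hx
  have h3 : Algebra.norm ℤ x ≠ 0 := Algebra.norm_ne_zero_iff.mpr hx0
  have h4 : (Ideal.absNorm 𝔟 : ℤ) ≤ |Algebra.norm ℤ x| :=
    Int.le_of_dvd (abs_pos.2 h3) ((dvd_abs _ _).2 h2)
  exact_mod_cast h4

theorem t_LTC : S_LAT → S_PHL → S_BSI → S_LTC := by
  rintro ⟨C1, hC1, hLAT⟩ ⟨C2, hC2, hPHL⟩ hBSI
  refine ⟨C1 * C2 * 9 ^ 4, by positivity, ?_⟩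
  intro L _ _ _ hL μ 𝔟 h𝔟 y X hX hX1
  classical
  have hcard : Fintype.card (InfinitePlace L) = 4 := by rw [card_place, hL]
  have hne : Nonempty (InfinitePlace L) := by
    rw [← Fintype.card_pos_iff, hcard]
    norm_num
  obtain ⟨f, hf0, hf1, hdet⟩ := hBSI L 𝔟 h𝔟
  obtain ⟨hP1, -, hP3, -, -, -⟩ := hPHL (InfinitePlace L) hcard μ
  set D : ℝ := |(discr L : ℝ)| with hD
  have hD1 : 1 ≤ D := by
    rw [hD]
    have h1 : (1 : ℤ) ≤ |discr L| := Int.one_le_abs (NumberField.discr_ne_zero L)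
    exact_mod_cast h1
  have hX0 : 0 < X := (Real.exp_pos _).trans_le hX
  set E : ℝ := Real.exp (∑ w, y w / 2) with hE
  have hE0 : 0 < E := Real.exp_pos _
  have hNE : (Ideal.absNorm 𝔟 : ℝ) * E = X⁻¹ := by
    have h1 : X ≠ 0 := hX0.ne'
    field_simp
    linarith
  set b0 : InfinitePlace L → InfinitePlace L → ℝ :=
    fun i w => Real.exp (y w / 2) * rl w ((f i : 𝓞 L) : L) with hb0
  have hdetb : |(Matrix.of b0).det| = Real.sqrt D * X⁻¹ := by
    have h1 : (Matrix.of b0).det = (∏ w : InfinitePlace L, Real.exp (y w / 2)) *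
        (Matrix.of fun (i w : InfinitePlace L) => rl w ((f i : 𝓞 L) : L)).det := by
      rw [← Matrix.det_mul_row]
      rfl
    rw [h1, abs_mul, hdet, ← Real.exp_sum, abs_of_pos (Real.exp_pos _), ← hNE]
    ring
  have hsD : 1 ≤ Real.sqrt D := Real.one_le_sqrt.2 hD1
  have hdet0 : (Matrix.of b0).det ≠ 0 := by
    intro h
    rw [h, abs_zero] at hdetb
    have : 0 < Real.sqrt D * X⁻¹ := by positivity
    linarith
  have hli : LinearIndependent ℝ b0 := Matrix.linearIndependent_rows_of_det_ne_zero hdet0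
  let b : Module.Basis (InfinitePlace L) ℝ (InfinitePlace L → ℝ) :=
    basisOfLinearIndependentOfCardEqFinrank hli (by simp)
  have hb : ∀ i, b i = b0 i := fun i => by
    simp only [b, coe_basisOfLinearIndependentOfCardEqFinrank]
  set g : (InfinitePlace L → ℤ) → 𝓞 L := fun m => ∑ i, m i • f i with hg
  have hgw : ∀ (m : InfinitePlace L → ℤ) (w : InfinitePlace L),
      (∑ i, (m i : ℝ) • b i) w = Real.exp (y w / 2) * rl w ((g m : 𝓞 L) : L) := by
    intro m w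
    have h1 : ((g m : 𝓞 L) : L) = ∑ i, (m i : L) * ((f i : 𝓞 L) : L) := by
      simp [hg]
    rw [h1, map_sum, Finset.mul_sum, Finset.sum_apply]
    apply Finset.sum_congr rfl
    intro i _
    rw [hb, Pi.smul_apply, smul_eq_mul, map_mul, map_intCast]
    simp only [hb0]
    ring
  have hginj : Function.Injective g := by
    intro m m' h
    have h1 : ∑ i, (m i - m' i) • f i = 0 := by
      simp only [sub_smul, Finset.sum_sub_distrib]
      exact sub_eq_zero.2 h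
    have h2 := hf0 (fun i => m i - m' i) h1
    funext i
    have := congrFun h2 i
    simp only [Pi.zero_apply] at this
    omega
  -- the shortest vector
  set l : ℝ := X ^ (-(1 / 4) : ℝ) with hl
  have hl0 : 0 < l := Real.rpow_pos_of_pos hX0 _
  have hl4 : l ^ 4 = X⁻¹ := by
    rw [hl, ← Real.rpow_natCast, ← Real.rpow_mul hX0.le]
    norm_num
    rw [Real.rpow_neg_one]
  have hshort : ∀ m : InfinitePlace L → ℤ, m ≠ 0 → l ≤ ‖∑ i, (m i : ℝ) • b i‖ := by
    intro m hm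
    by_contra hcon
    push Not at hcon
    set r : InfinitePlace L → ℝ := ∑ i, (m i : ℝ) • b i with hr
    have hx0 : g m ≠ 0 := by
      intro h
      exact hm (hf0 m h)
    have hxb : g m ∈ 𝔟 := (hf1 _).2 ⟨m, rfl⟩
    have h1 : ∏ w, |r w| ≤ ‖r‖ ^ 4 := by
      calc ∏ w, |r w| ≤ ∏ _w : InfinitePlace L, ‖r‖ :=
            Finset.prod_le_prod (fun w _ => abs_nonneg _) (fun w _ => norm_le_pi_norm r w)
        _ = ‖r‖ ^ 4 := by rw [Finset.prod_const, Finset.card_univ, hcard]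
    have h2 : ‖r‖ ^ 4 < l ^ 4 := pow_lt_pow_left₀ hcon (norm_nonneg _) (by norm_num)
    have h3 : ∏ w, |r w| = E * ∏ w : InfinitePlace L, |rl w ((g m : 𝓞 L) : L)| := by
      rw [hE, Real.exp_sum, ← Finset.prod_mul_distrib]
      apply Finset.prod_congr rfl
      intro w _
      rw [hr, hgw, abs_mul, abs_of_pos (Real.exp_pos _)]
    have h4 := norm_ge hxb hx0
    have h5 : X⁻¹ ≤ ∏ w, |r w| := by
      rw [h3, ← hNE, mul_comm]
      exact mul_le_mul_of_nonneg_left h4 hE0.le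
    rw [hl4] at h2
    linarith
  have hLp : 0 ≤ C2 * (1 + ∑ w, |μ w|) := by
    have : 0 ≤ ∑ w, |μ w| := Finset.sum_nonneg (fun w _ => abs_nonneg _)
    positivity
  have hv : Real.sqrt D * X⁻¹ = |(Matrix.of fun i => b i).det| := by
    rw [← hdetb]
    congr 2
    ext i w
    simp only [Matrix.of_apply, hb]
  obtain ⟨hsum, hbound⟩ := hLAT (InfinitePlace L) hcard b l (Real.sqrt D * X⁻¹) hl0 hv hshort
    (Ph μ) (C2 * (1 + ∑ w, |μ w|)) 3 hLp (by norm_num) hP1 hP3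
  set F₀ : 𝓞 L → ℂ := fun x => ind 𝔟 x * Ph μ (fun w => Real.exp (y w / 2) * w (x : L)) with hF₀
  have hF₀g : ∀ m, F₀ (g m) = Ph μ (∑ i, (m i : ℝ) • b i) := by
    intro m
    have h1 : ind 𝔟 (g m) = 1 := by
      unfold ind
      rw [if_pos ((hf1 _).2 ⟨m, rfl⟩)]
    simp only [hF₀]
    rw [h1, one_mul]
    apply Ph_abs
    intro w
    rw [hgw, abs_mul, abs_mul, abs_rl, abs_of_nonneg (apply_nonneg w _)]
  have hF₀0 : ∀ x ∉ Set.range g, F₀ x = 0 := by
    intro x hx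
    have h1 : x ∉ 𝔟 := by
      intro h
      obtain ⟨m, rfl⟩ := (hf1 x).1 h
      exact hx ⟨m, rfl⟩
    simp only [hF₀]
    unfold ind
    rw [if_neg h1, zero_mul]
  have hsum' : Summable F₀ := by
    rw [← hginj.summable_iff hF₀0]
    exact hsum.congr (fun m => (hF₀g m).symm)
  have htsum : tc μ (ind 𝔟) y = ∑' m : InfinitePlace L → ℤ, Ph μ (∑ i, (m i : ℝ) • b i) := by
    have h1 : ∑' m, F₀ (g m) = ∑' x, F₀ x := hginj.tsum_eq (by
      intro x hx
      by_contra h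
      exact hx (hF₀0 x h))
    unfold tc
    rw [← h1]
    exact tsum_congr hF₀g
  refine ⟨hsum', ?_⟩
  rw [htsum]
  have hmain : kap μ * ((X / Real.sqrt D : ℝ) : ℂ) =
      ((1 / (Real.sqrt D * X⁻¹) : ℝ) : ℂ) * ∫ x, Ph μ x := by
    unfold kap
    rw [mul_comm]
    congr 2
    have h1 : X ≠ 0 := hX0.ne'
    have h2 : Real.sqrt D ≠ 0 := by positivity
    field_simp
  rw [hmain]
  refine hbound.trans ?_
  -- the numbers
  set q : ℝ := X ^ (1 / 4 : ℝ) with hq
  have hq0 : 0 < q := Real.rpow_pos_of_pos hX0 _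
  have hlq : l = q⁻¹ := by
    rw [hl, hq, ← Real.rpow_neg hX0.le]
  have hq4 : q ^ 4 = X := by
    rw [hq, ← Real.rpow_natCast, ← Real.rpow_mul hX0.le]
    norm_num
  have hq3 : X ^ (3 / 4 : ℝ) = q ^ 3 := by
    rw [hq, ← Real.rpow_natCast, ← Real.rpow_mul hX0.le]
    norm_num
  have hqe : Real.exp (-1) ≤ q := by
    have h1 : Real.exp (-1) = (Real.exp (-4)) ^ (1 / 4 : ℝ) := by
      rw [← Real.exp_mul]
      norm_num
    rw [h1, hq]
    exact Real.rpow_le_rpow (Real.exp_pos _).le hX (by norm_num)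
  have hqe' : 1 ≤ 3 * q := by
    have h1 : (1 : ℝ) / 3 ≤ Real.exp (-1) := by
      rw [Real.exp_neg, one_div]
      apply inv_anti₀ (Real.exp_pos _)
      have := Real.exp_one_lt_d9
      linarith
    linarith
  set s : ℝ := Real.sqrt D with hs
  have hs2 : s ^ 2 = D := Real.sq_sqrt (by linarith)
  have e1 : s * X⁻¹ / l ^ 3 = s * q⁻¹ := by
    rw [hlq, ← hq4]
    field_simp
  rw [e1, hlq, hq3]
  have e2 : 1 + (3 + s * q⁻¹) / q⁻¹ = 1 + 3 * q + s := by
    field_simp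
    ring
  rw [e2]
  have h1 : 1 + 3 * q + s ≤ 9 * (s * q) := by nlinarith
  have h2 : (1 + 3 * q + s) ^ 4 ≤ (9 * (s * q)) ^ 4 := pow_le_pow_left₀ (by positivity) h1 4
  have h3 : s ^ 5 ≤ D ^ 4 := by
    rw [← hs2, ← pow_mul]
    exact pow_le_pow_right₀ hsD (by norm_num)
  calc C1 * (C2 * (1 + ∑ w, |μ w|)) * (s * q⁻¹) * (1 + 3 * q + s) ^ 4
      ≤ C1 * (C2 * (1 + ∑ w, |μ w|)) * (s * q⁻¹) * (9 * (s * q)) ^ 4 :=
        mul_le_mul_of_nonneg_left h2 (by positivity)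
    _ = C1 * (C2 * (1 + ∑ w, |μ w|)) * 9 ^ 4 * q ^ 3 * s ^ 5 := by
        field_simp
    _ ≤ C1 * (C2 * (1 + ∑ w, |μ w|)) * 9 ^ 4 * q ^ 3 * D ^ 4 :=
        mul_le_mul_of_nonneg_left h3 (by positivity)
    _ = C1 * C2 * 9 ^ 4 * (1 + ∑ w, |μ w|) * D ^ 4 * q ^ 3 := by ring

end Pool.Agent.J4H33.HG
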